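import Mathlib

/-! Measure estimates on the circle `ℝ / ℤ`: translates, dilates, boundary layers, mixing. -/

namespace Pool.Agent.P.MP_60620c_an

open MeasureTheory Set Filter Topology

abbrev T := UnitAddCircle

/-- Haar probability of a subset of the circle, as a real number. -/
noncomputable def m (U : Set T) : ℝ := (volume : Measure T).real U

instance instProb : IsProbabilityMeasure (volume : Measure T) := ⟨UnitAddCircle.measure_univ⟩

lemma m_nonneg (U : Set T) : 0 ≤ m U := measureReal_nonneg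

lemma m_mono {U V : Set T} (h : U ⊆ V) : m U ≤ m V := measureReal_mono h

lemma m_univ : m univ = 1 := by simp [m]

lemma m_empty : m ∅ = 0 := by simp [m]

lemma m_le_one (U : Set T) : m U ≤ 1 := m_univ ▸ m_mono (subset_univ U)

lemma m_union_le (U V : Set T) : m (U ∪ V) ≤ m U + m V := measureReal_union_le U V

lemma m_union_add_inter (U : Set T) {V : Set T} (hV : MeasurableSet V) :
    m (U ∪ V) + m (U ∩ V) = m U + m V := measureReal_union_add_inter hV

lemma m_inter_add_diff (U : Set T) {V : Set T} (hV : MeasurableSet V) :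
    m (U ∩ V) + m (U \ V) = m U := measureReal_inter_add_sdiff hV

lemma m_compl {U : Set T} (hU : MeasurableSet U) : m Uᶜ = 1 - m U :=
  probReal_compl_eq_one_sub hU

lemma m_le_add_diff (U V : Set T) : m U ≤ m V + m (U \ V) := by
  refine le_trans (m_mono ?_) (m_union_le V (U \ V))
  intro y hy
  by_cases h : y ∈ V
  · exact Or.inl h
  · exact Or.inr ⟨hy, h⟩

lemma m_biUnion_le {ι : Type*} (S : Finset ι) (f : ι → Set T) {c : ℝ}
    (h : ∀ s ∈ S, m (f s) ≤ c) : m (⋃ s ∈ S, f s) ≤ S.card * c := by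
  refine le_trans (measureReal_biUnion_finset_le S f) ?_
  have := Finset.sum_le_card_nsmul S (fun s => m (f s)) c h
  simpa [m] using this

/-- The translate `U + c`. -/
def tr (c : T) (U : Set T) : Set T := {y | y - c ∈ U}

lemma mem_tr {c : T} {U : Set T} {y : T} : y ∈ tr c U ↔ y - c ∈ U := Iff.rfl

lemma m_tr (c : T) (U : Set T) : m (tr c U) = m U := by
  have : tr c U = (fun y => y + (-c)) ⁻¹' U := by
    ext y; simp [tr, sub_eq_add_neg]
  rw [this]
  simp only [m, Measure.real]
  rw [measure_preimage_add_right]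

lemma isClosed_tr (c : T) {U : Set T} (h : IsClosed U) : IsClosed (tr c U) :=
  h.preimage (continuous_id.sub continuous_const)

lemma measurableSet_tr (c : T) {U : Set T} (h : MeasurableSet U) : MeasurableSet (tr c U) :=
  (measurable_id.sub_const c) h

/-- The preimage of `U` under multiplication by `3 ^ k`. -/
def sc (k : ℕ) (U : Set T) : Set T := {y | ((3 : ℤ) ^ k) • y ∈ U}

lemma mem_sc {k : ℕ} {U : Set T} {y : T} : y ∈ sc k U ↔ ((3 : ℤ) ^ k) • y ∈ U := Iff.rfl

lemma isClosed_sc (k : ℕ) {U : Set T} (h : IsClosed U) : IsClosed (sc k U) :=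
  h.preimage (continuous_zsmul _)

lemma measurableSet_sc (k : ℕ) {U : Set T} (h : MeasurableSet U) : MeasurableSet (sc k U) :=
  (continuous_zsmul _).measurable h

lemma m_sc (k : ℕ) {U : Set T} (h : MeasurableSet U) : m (sc k U) = m U := by
  have hp : MeasurePreserving (fun y : T => ((3 : ℤ) ^ k) • y) volume volume :=
    Measure.measurePreserving_zsmul volume (by positivity)
  simp only [m, Measure.real]
  exact congrArg ENNReal.toReal (hp.measure_preimage h.nullMeasurableSet)

/-- The outer boundary layer of width `δ`. -/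
def bd (δ : ℝ) (U : Set T) : Set T := {y | y ∉ U ∧ ∃ t : ℝ, |t| ≤ δ ∧ y - (t : T) ∈ U}

lemma bd_mono {δ δ' : ℝ} (h : δ ≤ δ') (U : Set T) : bd δ U ⊆ bd δ' U := by
  rintro y ⟨hy, t, ht, hyt⟩
  exact ⟨hy, t, ht.trans h, hyt⟩

lemma bd_inter (δ : ℝ) (U V : Set T) : bd δ (U ∩ V) ⊆ bd δ U ∪ bd δ V := by
  rintro y ⟨hy, t, ht, hyt⟩
  by_cases h : y ∈ U
  · exact Or.inr ⟨fun h' => hy ⟨h, h'⟩, t, ht, hyt.2⟩
  · exact Or.inl ⟨h, t, ht, hyt.1⟩

lemma bd_tr (δ : ℝ) (c : T) (U : Set T) : bd δ (tr c U) = tr c (bd δ U) := by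
  ext y
  simp only [bd, tr, mem_ofPred_eq, sub_right_comm y c]

lemma m_diff_tr_le {U : Set T} (hU : MeasurableSet U) {t δ : ℝ} (ht : |t| ≤ δ) :
    m (U \ tr (t : T) U) ≤ m (bd δ U) := by
  have h1 := m_inter_add_diff U (measurableSet_tr (t : T) hU)
  have h2 := m_inter_add_diff (tr (t : T) U) hU
  rw [inter_comm, m_tr] at h2
  have h3 : m (tr (t : T) U \ U) ≤ m (bd δ U) := m_mono (fun y hy => ⟨hy.2, t, ht, hy.1⟩)
  linarith

lemma tendsto_m_bd {U : Set T} (hU : IsClosed U) {ε : ℝ} (hε : 0 < ε) :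
    ∃ δ > 0, m (bd δ U) ≤ ε := by
  have h := tendsto_measure_cthickening_of_isClosed (μ := (volume : Measure T)) (s := U)
    ⟨1, one_pos, measure_ne_top _ _⟩ hU
  have h' : Tendsto (fun r => m (Metric.cthickening r U)) (𝓝 0) (𝓝 (m U)) :=
    (ENNReal.tendsto_toReal (measure_ne_top _ _)).comp h
  have h2 : ∀ᶠ r in 𝓝 (0 : ℝ), m (Metric.cthickening r U) < m U + ε :=
    h'.eventually (gt_mem_nhds (by linarith))
  obtain ⟨δ, hδ, hδ'⟩ := (h2.filter_mono nhdsWithin_le_nhds).and (self_mem_nhdsWithin (s := Ioi 0)) |>.exists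
  refine ⟨δ, hδ', ?_⟩
  have h3 : bd δ U ⊆ Metric.cthickening δ U \ U := by
    rintro y ⟨hy, t, ht, hyt⟩
    refine ⟨Metric.mem_cthickening_of_dist_le y _ δ U hyt ?_, hy⟩
    rw [dist_eq_norm, sub_sub_cancel]
    exact le_trans (QuotientAddGroup.norm_mk_le_norm) (by simpa using ht)
  have h4 := m_inter_add_diff (Metric.cthickening δ U) hU.measurableSet
  rw [inter_eq_right.mpr (Metric.self_subset_cthickening U)] at h4
  have := m_mono h3
  linarith

/-- Averaging over all translates. -/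
lemma integral_m_tr_inter {U W : Set T} (hU : MeasurableSet U) (hW : MeasurableSet W) :
    ∫⁻ t : T, volume (tr t U ∩ W) = volume U * volume W := by
  let Z : Set (T × T) := {p | p.2 - p.1 ∈ U ∧ p.2 ∈ W}
  have hZ : MeasurableSet Z :=
    ((measurable_snd.sub measurable_fst) hU).inter (measurable_snd hW)
  have h1 : (volume : Measure T).prod volume Z = ∫⁻ t : T, volume (tr t U ∩ W) := by
    rw [Measure.prod_apply hZ]; rfl
  have h2 : (volume : Measure T).prod volume Z =
      ∫⁻ y : T, W.indicator (fun _ => volume U) y := by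
    rw [Measure.prod_apply_symm hZ]
    refine lintegral_congr fun y => ?_
    by_cases hy : y ∈ W
    · rw [indicator_of_mem hy]
      have : (fun x : T => (x, y)) ⁻¹' Z = (fun x => y - x) ⁻¹' U := by
        ext x; simp [Z, hy]
      rw [this]
      exact (Measure.measurePreserving_sub_left volume y).measure_preimage hU.nullMeasurableSet
    · rw [indicator_of_notMem hy]
      have : (fun x : T => (x, y)) ⁻¹' Z = ∅ := by
        ext x; simp [Z, hy]
      rw [this, measure_empty]
  rw [← h1, h2, lintegral_indicator hW, setLIntegral_const]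

lemma exists_near_torsion (k : ℕ) (t : T) :
    ∃ (r : ℝ) (z : T), |r| ≤ (1 / 3) ^ k ∧ ((3 : ℤ) ^ k) • z = 0 ∧ t = (r : T) + z := by
  obtain ⟨a, rfl⟩ := QuotientAddGroup.mk_surjective t
  have h3 : (0 : ℝ) < 3 ^ k := by positivity
  refine ⟨Int.fract (3 ^ k * a) / 3 ^ k, ((⌊3 ^ k * a⌋ / 3 ^ k : ℝ) : T), ?_, ?_, ?_⟩
  · rw [abs_of_nonneg (div_nonneg (Int.fract_nonneg _) h3.le), one_div, inv_pow, div_eq_mul_inv]
    exact mul_le_of_le_one_left (inv_nonneg.mpr h3.le) (Int.fract_lt_one _).le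
  · rw [← AddCircle.coe_zsmul, AddCircle.coe_eq_zero_iff]
    refine ⟨⌊3 ^ k * a⌋, ?_⟩
    simp only [zsmul_eq_mul, mul_one]
    push_cast
    field_simp
  · rw [← AddCircle.coe_add]
    congr 1
    rw [← add_div, Int.fract_add_floor]
    field_simp

/-- Mixing: a set and a much finer periodic set are nearly independent. -/
lemma mix {U V : Set T} (hU : MeasurableSet U) (hV : MeasurableSet V) (k : ℕ) :
    |m (U ∩ sc k V) - m U * m V| ≤ m (bd ((1 / 3) ^ k) U) := by
  set W := sc k V with hWdef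
  have hW : MeasurableSet W := measurableSet_sc k hV
  set e := m (bd ((1 / 3) ^ k) U) with he
  have key : ∀ t : T, |m (tr t U ∩ W) - m (U ∩ W)| ≤ e := by
    intro t
    obtain ⟨r, z, hr, hz, rfl⟩ := exists_near_torsion k t
    have h1 : tr ((r : T) + z) U ∩ W = tr z (tr (r : T) U ∩ W) := by
      ext y
      simp only [mem_inter_iff, mem_tr, hWdef, mem_sc, smul_sub, hz, sub_zero]
      rw [show y - ((r : T) + z) = y - z - r by abel]
    rw [h1, m_tr, abs_le]
    have h2 := m_le_add_diff (tr (r : T) U ∩ W) (U ∩ W)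
    have h3 := m_le_add_diff (U ∩ W) (tr (r : T) U ∩ W)
    have h4 : m ((tr (r : T) U ∩ W) \ (U ∩ W)) ≤ e :=
      m_mono (fun y hy => ⟨fun h => hy.2 ⟨h, hy.1.2⟩, r, hr, hy.1.1⟩)
    have h5 : m ((U ∩ W) \ (tr (r : T) U ∩ W)) ≤ e :=
      le_trans (m_mono (V := U \ tr (r : T) U) (fun y hy => ⟨hy.1.1, fun h => hy.2 ⟨h, hy.1.2⟩⟩))
        (m_diff_tr_le hU hr)
    constructor <;> linarith
  have hint := integral_m_tr_inter hU hW
  have hmW : m W = m V := m_sc k hV
  have hprod : (∫⁻ t : T, volume (tr t U ∩ W)).toReal = m U * m V := by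
    rw [hint, ENNReal.toReal_mul, ← hmW]; rfl
  have he0 : 0 ≤ e := m_nonneg _
  have hup : (∫⁻ t : T, volume (tr t U ∩ W)) ≤ ENNReal.ofReal (m (U ∩ W) + e) := by
    calc (∫⁻ t : T, volume (tr t U ∩ W)) ≤ ∫⁻ _ : T, ENNReal.ofReal (m (U ∩ W) + e) := by
          refine lintegral_mono fun t => ?_
          have := (abs_le.mp (key t)).2
          rw [← ofReal_measureReal (μ := volume) (s := tr t U ∩ W)]
          exact ENNReal.ofReal_le_ofReal (by change m _ ≤ _; linarith)
      _ = _ := by simp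
  have hlo : ENNReal.ofReal (m (U ∩ W) - e) ≤ (∫⁻ t : T, volume (tr t U ∩ W)) := by
    calc ENNReal.ofReal (m (U ∩ W) - e) = ∫⁻ _ : T, ENNReal.ofReal (m (U ∩ W) - e) := by simp
      _ ≤ _ := by
          refine lintegral_mono fun t => ?_
          have := (abs_le.mp (key t)).1
          rw [← ofReal_measureReal (μ := volume) (s := tr t U ∩ W)]
          exact ENNReal.ofReal_le_ofReal (by change _ ≤ m _; linarith)
  have hfin : (∫⁻ t : T, volume (tr t U ∩ W)) ≠ ⊤ := ne_top_of_le_ne_top ENNReal.ofReal_ne_top hup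
  have h1 : m U * m V ≤ m (U ∩ W) + e := by
    rw [← hprod]
    exact ENNReal.toReal_le_of_le_ofReal (add_nonneg (m_nonneg _) he0) hup
  have h2 : m (U ∩ W) - e ≤ m U * m V := by
    rw [← hprod]
    exact (ENNReal.ofReal_le_iff_le_toReal hfin).mp hlo
  rw [abs_le]
  constructor <;> linarith

/-- A family of sets indexed by a scale `k` and a position `x` whose measures tend to zero
uniformly in `|x| ≤ 1`. -/
def Small (U : ℕ → ℝ → Set T) : Prop :=
  ∀ ε > 0, ∀ᶠ k in atTop, ∀ x : ℝ, |x| ≤ 1 → m (U k x) ≤ ε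

lemma Small.mono {U V : ℕ → ℝ → Set T} (h : Small V) (hUV : ∀ k x, |x| ≤ 1 → m (U k x) ≤ m (V k x)) :
    Small U := by
  intro ε hε
  filter_upwards [h ε hε] with k hk x hx
  exact (hUV k x hx).trans (hk x hx)

lemma Small.union {U V : ℕ → ℝ → Set T} (hU : Small U) (hV : Small V) :
    Small (fun k x => U k x ∪ V k x) := by
  intro ε hε
  filter_upwards [hU (ε / 2) (by linarith), hV (ε / 2) (by linarith)] with k h1 h2 x hx
  have := m_union_le (U k x) (V k x)
  linarith [h1 x hx, h2 x hx]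

lemma Small.biUnion {ι : Type*} {S : Set ι} (hS : S.Finite) {U : ι → ℕ → ℝ → Set T}
    (h : ∀ s ∈ S, Small (U s)) : Small (fun k x => ⋃ s ∈ S, U s k x) := by
  induction S, hS using Set.Finite.induction_on with
  | empty =>
    intro ε hε
    filter_upwards with k x _
    simp [m_empty, hε.le]
  | @insert a s _ _ ih =>
    have h1 := (h a (mem_insert a s)).union (ih fun b hb => h b (mem_insert_of_mem a hb))
    refine h1.mono fun k x _ => m_mono ?_
    rw [biUnion_insert]

lemma eventually_pow_le {δ : ℝ} (hδ : 0 < δ) : ∀ᶠ k : ℕ in atTop, ((1 : ℝ) / 3) ^ k ≤ δ :=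
  (tendsto_pow_atTop_nhds_zero_of_lt_one (by norm_num) (by norm_num)).eventually
    (ge_mem_nhds hδ)

/-- A family of sets with uniformly thin boundary layers. -/
def Reg (W : ℝ → Set T) : Prop := Small (fun k x => bd ((1 / 3) ^ k) (W x))

lemma reg_const {U : Set T} (hU : IsClosed U) : Reg (fun _ => U) := by
  intro ε hε
  obtain ⟨δ, hδ, h⟩ := tendsto_m_bd hU hε
  filter_upwards [eventually_pow_le hδ] with k hk x _
  exact (m_mono (bd_mono hk U)).trans h

lemma Reg.inter {U V : ℝ → Set T} (hU : Reg U) (hV : Reg V) : Reg (fun x => U x ∩ V x) :=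
  (Small.union hU hV).mono fun _ _ _ => m_mono (bd_inter _ _ _)

lemma Reg.tr {U : ℝ → Set T} (hU : Reg U) (c : ℝ → T) : Reg (fun x => tr (c x) (U x)) :=
  Small.mono hU fun _ _ _ => by rw [bd_tr, m_tr]

end Pool.Agent.P.MP_60620c_an
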