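import Pool.Agent.P.MP_60620c_an.Basic

/-! Finite configurations of closed fibres over slopes with finite Cantor expansions. -/

namespace Pool.Agent.P.MP_60620c_an

open MeasureTheory Set Filter Topology

lemma div_three_mem {c : ℝ} (hc : c ∈ cantorSet) : c / 3 ∈ cantorSet := by
  rw [cantorSet_eq_union_halves]
  exact Or.inl ⟨c, hc, rfl⟩

lemma two_add_div_three_mem {c : ℝ} (hc : c ∈ cantorSet) : (2 + c) / 3 ∈ cantorSet := by
  rw [cantorSet_eq_union_halves]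
  exact Or.inr ⟨c, hc, rfl⟩

lemma div_pow_mem {c : ℝ} (hc : c ∈ cantorSet) (k : ℕ) : c / 3 ^ k ∈ cantorSet := by
  induction k with
  | zero => simpa using hc
  | succ k ih =>
    have := div_three_mem ih
    rwa [div_div, ← pow_succ] at this

/-- `s` is the left end point of a copy of the Cantor set at level `k`. -/
def GoodAt (k : ℕ) (s : ℝ) : Prop := ∀ c ∈ cantorSet, s + c / 3 ^ k ∈ cantorSet

/-- `s` is the left end point of some small copy of the Cantor set. -/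
def Good (s : ℝ) : Prop := ∃ k, GoodAt k s

lemma GoodAt.mono {k l : ℕ} {s : ℝ} (h : GoodAt k s) (hkl : k ≤ l) : GoodAt l s := by
  intro c hc
  obtain ⟨j, rfl⟩ := Nat.exists_eq_add_of_le hkl
  have := h _ (div_pow_mem hc j)
  rwa [div_div, ← pow_add, add_comm j k] at this

lemma goodAt_zero (k : ℕ) : GoodAt k 0 := fun c hc => by simpa using div_pow_mem hc k

lemma GoodAt.add {k : ℕ} {s s' : ℝ} (h : GoodAt k s) (h' : Good s') : Good (s + s' / 3 ^ k) := by
  obtain ⟨l, hl⟩ := h'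
  refine ⟨l + k, fun c hc => ?_⟩
  have := h _ (hl c hc)
  rwa [add_div, div_div, ← pow_add, ← add_assoc] at this

lemma Good.mem {s : ℝ} (h : Good s) : s ∈ cantorSet := by
  obtain ⟨k, hk⟩ := h
  simpa using hk 0 zero_mem_cantorSet

lemma Good.abs_le {s : ℝ} (h : Good s) : |s| ≤ 1 := by
  have := cantorSet_subset_unitInterval h.mem
  rw [abs_of_nonneg this.1]
  exact this.2

lemma Good.div_pow {s : ℝ} (h : Good s) (k : ℕ) : Good (s / 3 ^ k) := by
  simpa using (goodAt_zero k).add h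

lemma good_two_thirds : Good (2 / 3) := ⟨1, fun c hc => by
  have := two_add_div_three_mem hc
  convert this using 1
  ring⟩

lemma goodAt_lam : GoodAt 2 (2 / 9) := fun c hc => by
  have := div_three_mem (two_add_div_three_mem hc)
  convert this using 1
  ring

lemma Good.eventually {s : ℝ} (h : Good s) : ∀ᶠ k in atTop, GoodAt k s := by
  obtain ⟨k, hk⟩ := h
  filter_upwards [eventually_ge_atTop k] with l hl using hk.mono hl

/-- The slopes used by a configuration. -/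
def supp (A : ℝ → Set T) : Set ℝ := {s | (A s).Nonempty}

/-- A configuration: finitely many good slopes, each with a closed fibre of intercepts. -/
structure IsCfg (A : ℝ → Set T) : Prop where
  closed : ∀ s, IsClosed (A s)
  fin : (supp A).Finite
  good : ∀ s ∈ supp A, Good s

/-- The slice at abscissa `x` of the union of the lines of a configuration. -/
def proj (A : ℝ → Set T) (x : ℝ) : Set T := {y | ∃ s : ℝ, y - ((s * x : ℝ) : T) ∈ A s}

lemma proj_eq (A : ℝ → Set T) (x : ℝ) :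
    proj A x = ⋃ s ∈ supp A, tr ((s * x : ℝ) : T) (A s) := by
  ext y
  simp only [proj, mem_ofPred_eq, mem_iUnion, mem_tr, supp, exists_prop]
  exact ⟨fun ⟨s, hs⟩ => ⟨s, ⟨_, hs⟩, hs⟩, fun ⟨s, _, hs⟩ => ⟨s, hs⟩⟩

lemma IsCfg.isClosed_proj {A : ℝ → Set T} (h : IsCfg A) (x : ℝ) : IsClosed (proj A x) := by
  rw [proj_eq]
  exact h.fin.isClosed_biUnion fun s _ => isClosed_tr _ (h.closed s)

lemma IsCfg.reg_proj {A : ℝ → Set T} (h : IsCfg A) : Reg (proj A) := by
  have h1 : Small (fun k x => ⋃ s ∈ supp A, bd ((1 / 3) ^ k) (tr ((s * x : ℝ) : T) (A s))) :=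
    Small.biUnion h.fin fun s _ => (reg_const (h.closed s)).tr (fun x => ((s * x : ℝ) : T))
  refine h1.mono fun k x _ => m_mono ?_
  rintro y ⟨hy, t, ht, s, hs⟩
  simp only [mem_iUnion, exists_prop]
  exact ⟨s, ⟨_, hs⟩, fun h' => hy ⟨s, h'⟩, t, ht, hs⟩

/-- Keep only the intercepts in `E`. -/
def gate (E : Set T) (A : ℝ → Set T) : ℝ → Set T := fun s => A s ∩ E

/-- Add `l` to every slope. -/
def shear (l : ℝ) (A : ℝ → Set T) : ℝ → Set T := fun s => A (s - l)

/-- Shrink slopes and intercepts by the factor `3 ^ k`, periodically. -/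
def scale (k : ℕ) (A : ℝ → Set T) : ℝ → Set T := fun s => sc k (A (3 ^ k * s))

/-- Shrink only the slopes by the factor `3 ^ k`. -/
def flat (k : ℕ) (A : ℝ → Set T) : ℝ → Set T := fun s => A (3 ^ k * s)

lemma proj_shear (l : ℝ) (A : ℝ → Set T) (x : ℝ) :
    proj (shear l A) x = tr ((l * x : ℝ) : T) (proj A x) := by
  ext y
  simp only [proj, shear, mem_ofPred_eq, mem_tr]
  constructor
  · rintro ⟨s, hs⟩
    refine ⟨s - l, ?_⟩
    rwa [sub_sub, ← AddCircle.coe_add, show l * x + (s - l) * x = s * x by ring]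
  · rintro ⟨s, hs⟩
    refine ⟨s + l, ?_⟩
    rwa [add_sub_cancel_right, show (s + l) * x = l * x + s * x by ring, AddCircle.coe_add,
      ← sub_sub]

lemma smul_coe (k : ℕ) (a : ℝ) : ((3 : ℤ) ^ k) • (a : T) = ((3 ^ k * a : ℝ) : T) := by
  rw [← AddCircle.coe_zsmul]
  simp

lemma proj_scale (k : ℕ) (A : ℝ → Set T) (x : ℝ) : proj (scale k A) x = sc k (proj A x) := by
  ext y
  simp only [proj, scale, mem_ofPred_eq, mem_sc, smul_sub, smul_coe]
  constructor
  · rintro ⟨s, hs⟩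
    exact ⟨3 ^ k * s, by rwa [mul_assoc]⟩
  · rintro ⟨s, hs⟩
    have h3 : (3 : ℝ) ^ k ≠ 0 := by positivity
    refine ⟨s / 3 ^ k, ?_⟩
    rwa [← mul_assoc, mul_div_cancel₀ _ h3]

lemma proj_union (A B : ℝ → Set T) (x : ℝ) :
    proj (fun s => A s ∪ B s) x = proj A x ∪ proj B x := by
  ext y
  simp only [proj, mem_ofPred_eq, mem_union, exists_or]

/-- A sequence of configurations whose slopes are a fixed finite set shrunk by `3 ^ k`. -/
structure Fine (I : Set ℝ) (H : ℕ → ℝ → Set T) : Prop where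
  fin : I.Finite
  good : ∀ i ∈ I, Good i
  closed : ∀ k s, IsClosed (H k s)
  sub : ∀ k, ∀ s ∈ supp (H k), ∃ i ∈ I, s = i / 3 ^ k

lemma Fine.isCfg {I : Set ℝ} {H : ℕ → ℝ → Set T} (h : Fine I H) (k : ℕ) : IsCfg (H k) where
  closed := h.closed k
  fin := (h.fin.image fun i => i / 3 ^ k).subset fun s hs => by
    obtain ⟨i, hi, rfl⟩ := h.sub k s hs
    exact ⟨i, hi, rfl⟩
  good := fun s hs => by
    obtain ⟨i, hi, rfl⟩ := h.sub k s hs
    exact (h.good i hi).div_pow k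

lemma Fine.abs_le {I : Set ℝ} {H : ℕ → ℝ → Set T} (h : Fine I H) {k : ℕ} {s : ℝ}
    (hs : s ∈ supp (H k)) : |s| ≤ (1 / 3) ^ k := by
  obtain ⟨i, hi, rfl⟩ := h.sub k s hs
  have h3 : (0 : ℝ) < 3 ^ k := by positivity
  rw [abs_div, abs_of_pos h3, one_div_pow]
  exact div_le_div_of_nonneg_right (h.good i hi).abs_le h3.le

lemma IsCfg.fine_scale {A : ℝ → Set T} (h : IsCfg A) : Fine (supp A) (fun k => scale k A) where
  fin := h.fin
  good := h.good
  closed := fun k _ => isClosed_sc k (h.closed _)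
  sub := fun k s ⟨y, hy⟩ => ⟨3 ^ k * s, ⟨_, hy⟩, by field_simp⟩

lemma IsCfg.fine_flat {A : ℝ → Set T} (h : IsCfg A) : Fine (supp A) (fun k => flat k A) where
  fin := h.fin
  good := h.good
  closed := fun _ _ => h.closed _
  sub := fun k s hs => ⟨3 ^ k * s, hs, by field_simp⟩

lemma Fine.gate {I : Set ℝ} {H : ℕ → ℝ → Set T} (h : Fine I H) {E : Set T} (hE : IsClosed E) :
    Fine I (fun k => gate E (H k)) where
  fin := h.fin
  good := h.good
  closed := fun k s => (h.closed k s).inter hE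
  sub := fun k s ⟨y, hy⟩ => h.sub k s ⟨y, hy.1⟩

lemma abs_mul_le_of {s x δ : ℝ} (hs : |s| ≤ δ) (hx : |x| ≤ 1) : |s * x| ≤ δ := by
  rw [abs_mul]
  exact (mul_le_of_le_one_right (abs_nonneg _) hx).trans hs

lemma Fine.small_excess {I : Set ℝ} {H : ℕ → ℝ → Set T} (h : Fine I H) {E : Set T}
    (hE : IsClosed E) :
    Small (fun k x => proj (Pool.Agent.P.MP_60620c_an.gate E (H k)) x \ (proj (H k) x ∩ E)) := by
  refine Small.mono (reg_const hE) fun k x hx => m_mono ?_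
  rintro y ⟨⟨s, hs, hsE⟩, hy⟩
  exact ⟨fun h' => hy ⟨⟨s, hs⟩, h'⟩, s * x, abs_mul_le_of (h.abs_le ⟨_, hs⟩) hx, hsE⟩

lemma Fine.small_deficit {I : Set ℝ} {H : ℕ → ℝ → Set T} (h : Fine I H) {E : Set T}
    (hE : IsClosed E) :
    Small (fun k x => (proj (H k) x ∩ E) \ proj (Pool.Agent.P.MP_60620c_an.gate E (H k)) x) := by
  have h1 : Small (fun k x => ⋃ i ∈ I, E \ tr ((i / 3 ^ k * x : ℝ) : T) E) := by
    refine Small.biUnion h.fin fun i hi => ?_
    refine Small.mono (reg_const hE) fun k x hx => ?_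
    refine m_diff_tr_le hE.measurableSet ?_
    refine abs_mul_le_of ?_ hx
    have h3 : (0 : ℝ) < 3 ^ k := by positivity
    rw [abs_div, abs_of_pos h3, one_div_pow]
    exact div_le_div_of_nonneg_right (h.good i hi).abs_le h3.le
  refine h1.mono fun k x _ => m_mono ?_
  rintro y ⟨⟨⟨s, hs⟩, hyE⟩, hy⟩
  obtain ⟨i, hi, rfl⟩ := h.sub k s ⟨_, hs⟩
  simp only [mem_iUnion, exists_prop]
  exact ⟨i, hi, hyE, fun h' => hy ⟨_, hs, h'⟩⟩

/-- A finely rescaled configuration behind a gate is nearly independent of a regular family. -/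
lemma IsCfg.gated {A : ℝ → Set T} (hA : IsCfg A) {E : Set T} (hE : IsClosed E)
    {W : ℝ → Set T} (hW : Reg W) (hWm : ∀ x, MeasurableSet (W x)) (l : ℝ) {ε : ℝ} (hε : 0 < ε) :
    ∀ᶠ k in atTop, ∀ x : ℝ, |x| ≤ 1 →
      |m (W x ∩ proj (shear l (gate E (scale k A))) x) -
        m (W x ∩ tr ((l * x : ℝ) : T) E) * m (proj A x)| ≤ ε := by
  have hW' : Reg (fun x => tr (-((l * x : ℝ) : T)) (W x) ∩ E) :=
    (hW.tr fun x => -((l * x : ℝ) : T)).inter (reg_const hE)
  have hε3 : 0 < ε / 3 := by linarith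
  filter_upwards [hW' _ hε3, hA.fine_scale.small_excess hE _ hε3,
    hA.fine_scale.small_deficit hE _ hε3] with k h1 h2 h3 x hx
  set c : T := ((l * x : ℝ) : T) with hc
  have e1 : ∀ P : Set T, m (W x ∩ tr c P) = m (tr (-c) (W x) ∩ P) := by
    intro P
    rw [← m_tr c (tr (-c) (W x) ∩ P)]
    congr 1
    ext y
    simp [mem_tr]
  rw [proj_shear, e1, e1]
  set W' := tr (-c) (W x) with hW'def
  have hW'm : MeasurableSet W' := measurableSet_tr _ (hWm x)
  have hmix := mix (hW'm.inter hE.measurableSet) (hA.isClosed_proj x).measurableSet k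
  have h1' := h1 x hx
  have h2' := h2 x hx
  have h3' := h3 x hx
  simp only [proj_scale] at h2' h3'
  set P := proj (gate E (scale k A)) x
  set Q := sc k (proj A x)
  have h4 := m_le_add_diff (W' ∩ P) (W' ∩ E ∩ Q)
  have h5 := m_le_add_diff (W' ∩ E ∩ Q) (W' ∩ P)
  have h6 : m ((W' ∩ P) \ (W' ∩ E ∩ Q)) ≤ m (P \ (Q ∩ E)) :=
    m_mono fun y hy => ⟨hy.1.2, fun h => hy.2 ⟨⟨hy.1.1, h.2⟩, h.1⟩⟩
  have h7 : m ((W' ∩ E ∩ Q) \ (W' ∩ P)) ≤ m ((Q ∩ E) \ P) :=
    m_mono fun y hy => ⟨⟨hy.1.2, hy.1.1.2⟩, fun h => hy.2 ⟨hy.1.1.1, h⟩⟩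
  rw [abs_le] at hmix ⊢
  constructor <;> linarith [hmix.1, hmix.2]

lemma Fine.isCfg_shear {I : Set ℝ} {H : ℕ → ℝ → Set T} (h : Fine I H) {l : ℝ} {k : ℕ}
    (hl : GoodAt k l) : IsCfg (shear l (H k)) where
  closed := fun _ => h.closed k _
  fin := ((h.isCfg k).fin.image fun s => s + l).subset fun s hs => ⟨s - l, hs, by ring⟩
  good := fun s hs => by
    obtain ⟨i, hi, hi'⟩ := h.sub k (s - l) hs
    have := hl.add (h.good i hi)
    rwa [← hi', add_sub_cancel] at this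

lemma IsCfg.union {A B : ℝ → Set T} (hA : IsCfg A) (hB : IsCfg B) :
    IsCfg (fun s => A s ∪ B s) where
  closed := fun s => (hA.closed s).union (hB.closed s)
  fin := (hA.fin.union hB.fin).subset fun _ ⟨y, hy⟩ => hy.elim (fun h => Or.inl ⟨y, h⟩)
    (fun h => Or.inr ⟨y, h⟩)
  good := fun s ⟨y, hy⟩ => hy.elim (fun h => hA.good s ⟨y, h⟩) (fun h => hB.good s ⟨y, h⟩)

/-- Density profiles that are uniform limits of profiles of configurations. -/
def Dens (d : ℝ → ℝ) : Prop :=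
  ∀ ε > 0, ∃ A, IsCfg A ∧ ∀ x : ℝ, |x| ≤ 1 → |m (proj A x) - d x| ≤ ε

lemma Dens.bounds {d : ℝ → ℝ} (h : Dens d) {x : ℝ} (hx : |x| ≤ 1) : 0 ≤ d x ∧ d x ≤ 1 := by
  constructor
  · refine le_of_forall_pos_le_add fun ε hε => ?_
    obtain ⟨A, -, hA⟩ := h ε hε
    linarith [(abs_le.mp (hA x hx)).2, m_nonneg (proj A x)]
  · refine le_of_forall_pos_le_add fun ε hε => ?_
    obtain ⟨A, -, hA⟩ := h ε hε
    linarith [(abs_le.mp (hA x hx)).1, m_le_one (proj A x)]

/-- The configuration with the single slope `0` and fibre `E`. -/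
def single (E : Set T) : ℝ → Set T := fun s => {y | s = 0 ∧ y ∈ E}

lemma isCfg_single {E : Set T} (hE : IsClosed E) : IsCfg (single E) where
  closed := fun s => by
    by_cases h : s = 0
    · simpa [single, h] using hE
    · simp [single, h]
  fin := (finite_singleton 0).subset fun _ ⟨_, hy⟩ => hy.1
  good := fun s ⟨_, hy⟩ => by
    rw [hy.1]
    exact ⟨0, goodAt_zero 0⟩

lemma proj_single (E : Set T) (x : ℝ) : proj (single E) x = E := by
  ext y
  simp [proj, single]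

lemma dens_one : Dens (fun _ => 1) := fun ε hε =>
  ⟨single univ, isCfg_single isClosed_univ, fun x _ => by simp [proj_single, m_univ, hε.le]⟩

lemma dens_zero : Dens (fun _ => 0) := fun ε hε =>
  ⟨single ∅, isCfg_single isClosed_empty, fun x _ => by simp [proj_single, m_empty, hε.le]⟩

lemma abs_mul_sub_le {a b d ε : ℝ} (ha0 : 0 ≤ a) (ha1 : a ≤ 1) (h : |b - d| ≤ ε) :
    |a * b - a * d| ≤ ε := by
  rw [← mul_sub, abs_mul, abs_of_nonneg ha0]
  exact (mul_le_of_le_one_left (abs_nonneg _) ha1).trans h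

/-- The branching step. -/
lemma Dens.op {d₀ d₁ : ℝ → ℝ} (h₀ : Dens d₀) (h₁ : Dens d₁) {E₀ E₁ : Set T} (hE₀ : IsClosed E₀)
    (hE₁ : IsClosed E₁) :
    Dens (fun x => m E₀ * d₀ x + m E₁ * d₁ x -
      m (tr ((2 / 9 * x : ℝ) : T) E₁ ∩ E₀) * d₀ x * d₁ x) := by
  intro ε hε
  have hε' : 0 < ε / 8 := by linarith
  obtain ⟨A₀, hA₀, hd₀⟩ := h₀ _ hε'
  obtain ⟨A₁, hA₁, hd₁⟩ := h₁ _ hε'
  have hu : Reg (fun _ => (univ : Set T)) := reg_const isClosed_univ
  have hF : Reg (fun x => tr ((2 / 9 * x : ℝ) : T) E₁) :=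
    (reg_const hE₁).tr fun x => ((2 / 9 * x : ℝ) : T)
  obtain ⟨k₀, hk₀, hk₀'⟩ := ((hA₀.gated hE₀ hu (fun _ => MeasurableSet.univ) 0 hε').and
    (hA₀.gated hE₀ hF (fun _ => measurableSet_tr _ hE₁.measurableSet) 0 hε')).exists
  set B₀ := shear 0 (gate E₀ (scale k₀ A₀)) with hB₀def
  have hB₀ : IsCfg B₀ := (hA₀.fine_scale.gate hE₀).isCfg_shear (goodAt_zero k₀)
  obtain ⟨k₁, ⟨hk₁, hk₁'⟩, hk₁''⟩ :=
    (((hA₁.gated hE₁ hu (fun _ => MeasurableSet.univ) (2 / 9) hε').and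
    (hA₁.gated hE₁ hB₀.reg_proj (fun x => (hB₀.isClosed_proj x).measurableSet) (2 / 9) hε')).and
    (eventually_ge_atTop 2)).exists
  set B₁ := shear (2 / 9) (gate E₁ (scale k₁ A₁)) with hB₁def
  have hB₁ : IsCfg B₁ := (hA₁.fine_scale.gate hE₁).isCfg_shear (goodAt_lam.mono hk₁'')
  refine ⟨fun s => B₀ s ∪ B₁ s, hB₀.union hB₁, fun x hx => ?_⟩
  rw [proj_union]
  have e0 : tr ((0 * x : ℝ) : T) E₀ = E₀ := by
    ext y; simp [mem_tr]
  have a1 := hk₀ x hx
  have a2 := hk₀' x hx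
  have a3 := hk₁ x hx
  have a4 := hk₁' x hx
  simp only [univ_inter, e0, m_tr] at a1 a2 a3 a4
  have a5 := m_union_add_inter (proj B₀ x) (hB₁.isClosed_proj x).measurableSet
  set F := tr ((2 / 9 * x : ℝ) : T) E₁
  rw [inter_comm F (proj B₀ x)] at a2
  have b1 := abs_mul_sub_le (m_nonneg E₀) (m_le_one E₀) (hd₀ x hx)
  have b2 := abs_mul_sub_le (m_nonneg E₁) (m_le_one E₁) (hd₁ x hx)
  have b3 := abs_mul_sub_le (m_nonneg (F ∩ E₀)) (m_le_one _) (hd₀ x hx)
  have b4 := abs_mul_sub_le (m_nonneg (proj B₀ x ∩ F)) (m_le_one _) (hd₁ x hx)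
  have hb := h₁.bounds hx
  have b5 := abs_mul_sub_le hb.1 hb.2 a2
  have b6 := abs_mul_sub_le hb.1 hb.2 b3
  rw [abs_le] at *
  constructor <;> nlinarith [a1.1, a1.2, a3.1, a3.2, a4.1, a4.2, b1.1, b1.2, b2.1, b2.2, b4.1,
    b4.2, b5.1, b5.2, b6.1, b6.2]

end Pool.Agent.P.MP_60620c_an
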