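import Pool.Agent.P.MP_60620c_an.Refine

/-! From the cylinder to the plane. -/

namespace Pool.Agent.P.MP_60620c_an

open MeasureTheory Set Filter Topology Metric

lemma exists_lift {b : T} (hb : ‖b‖ ≤ 1 / 4) : ∃ a ∈ Icc (-1 / 4 : ℝ) (1 / 4), (a : T) = b := by
  obtain ⟨a, ha, rfl⟩ : ∃ a ∈ Ico (-1 / 2 : ℝ) (-1 / 2 + 1), (a : T) = b := by
    have := AddCircle.coe_image_Ico_eq (1 : ℝ) (-1 / 2)
    exact (this ▸ mem_univ b : b ∈ ((↑) : ℝ → T) '' Ico (-1 / 2 : ℝ) (-1 / 2 + 1))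
  have h1 : ‖(a : T)‖ = |a| := by
    rw [AddCircle.norm_coe_eq_abs_iff (1 : ℝ) one_ne_zero, abs_one, abs_le]
    constructor <;> linarith [ha.1, ha.2]
  rw [h1, abs_le] at hb
  exact ⟨a, ⟨by linarith [hb.1], hb.2⟩, rfl⟩

lemma volume_preimage_coe_null {U : Set T} (hU : MeasurableSet U) (h : volume U = 0) :
    volume (((↑) : ℝ → T) ⁻¹' U) = 0 := by
  have : ((↑) : ℝ → T) ⁻¹' U = ⋃ n : ℤ, ((↑) : ℝ → T) ⁻¹' U ∩ Ioc (n : ℝ) (n + 1) := by
    rw [← inter_iUnion, iUnion_Ioc_intCast, inter_univ]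
  rw [this, measure_iUnion_null_iff]
  intro n
  rw [← AddCircle.add_projection_respects_measure (1 : ℝ) n hU, h]

lemma exists_lines : ∃ (S : Set ℝ) (β : ℝ → ℝ), S ⊆ cantorSet ∧ IsCompact S ∧ ContinuousOn β S ∧
    (∀ x : ℝ, |x| ≤ 1 / 2 → volume ((fun s => s * x + β s) '' S) = 0) ∧
    (∀ x ∈ Near, volume ((fun s => s * x + β s) '' S) ≠ 0) := by
  obtain ⟨Z, hZc, hZ1, hZ2, hZ3, hZ4, hZ5⟩ := exists_limit
  let S : Set ℝ := Prod.fst '' Z
  have hS : IsCompact S := hZc.image continuous_fst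
  let Z' : Set (ℝ × ℝ) := {p | (p.1, (p.2 : T)) ∈ Z ∧ p.2 ∈ Icc (-1 / 4 : ℝ) (1 / 4)}
  have hZ' : IsCompact Z' := by
    refine (hS.prod (isCompact_Icc (a := (-1 / 4 : ℝ)) (b := 1 / 4))).of_isClosed_subset ?_ ?_
    · exact (hZc.isClosed.preimage (continuous_fst.prodMk
        ((AddCircle.continuous_mk' 1).comp continuous_snd))).inter
        (isClosed_Icc.preimage continuous_snd)
    · exact fun p hp => ⟨⟨_, hp.1, rfl⟩, hp.2⟩
  have hex : ∀ s ∈ S, ∃ a, (s, a) ∈ Z' := by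
    rintro _ ⟨⟨s, b⟩, hp, rfl⟩
    obtain ⟨a, ha, rfl⟩ := exists_lift (hZ2 _ hp)
    exact ⟨a, hp, ha⟩
  choose! β hβ using hex
  have huniq : ∀ s a, (s, a) ∈ Z' → β s = a := by
    intro s a ha
    have hb := hβ s ⟨_, ha.1, rfl⟩
    have := hZ3 s _ _ hb.1 ha.1
    refine (AddCircle.coe_eq_coe_iff_of_mem_Ico (p := (1 : ℝ)) (a := -1 / 4) ?_ ?_).mp this
    · exact ⟨hb.2.1, by linarith [hb.2.2]⟩
    · exact ⟨ha.2.1, by linarith [ha.2.2]⟩
  have hmeas : ∀ x, MeasurableSet (pr Z x) := fun x =>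
    (hZc.image (continuous_pr x)).isClosed.measurableSet
  refine ⟨S, β, ?_, hS, ?_, fun x hx => ?_, fun x hx h0 => ?_⟩
  · rintro _ ⟨p, hp, rfl⟩
    exact hZ1 p hp
  · rw [continuousOn_iff_isClosed]
    intro t ht
    refine ⟨Prod.fst '' (Z' ∩ Prod.snd ⁻¹' t),
      ((hZ'.inter_right (ht.preimage continuous_snd)).image continuous_fst).isClosed, ?_⟩
    ext s
    constructor
    · rintro ⟨h1, h2⟩
      exact ⟨⟨(s, β s), ⟨hβ s h2, h1⟩, rfl⟩, h2⟩
    · rintro ⟨⟨⟨s', a⟩, ⟨h1, h2⟩, rfl⟩, h3⟩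
      refine ⟨?_, h3⟩
      change β s' ∈ t
      rw [huniq s' a h1]
      exact h2
  · refine measure_mono_null ?_ (volume_preimage_coe_null (hmeas x) (hZ4 x hx))
    rintro _ ⟨s, hs, rfl⟩
    refine ⟨(s, (β s : T)), (hβ s hs).1, ?_⟩
    simp only [AddCircle.coe_add]
    rw [add_comm]
  · refine hZ5 x hx ?_
    rw [AddCircle.add_projection_respects_measure (1 : ℝ) 0 (hmeas x)]
    refine measure_mono_null (t := ⋃ n : ℤ, (fun y : ℝ => y + n) ⁻¹'
      ((fun s => s * x + β s) '' S)) ?_ ?_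
    · rintro y ⟨⟨⟨s, b⟩, hp, hy⟩, -⟩
      have hs : s ∈ S := ⟨_, hp, rfl⟩
      have hb := hZ3 s _ _ hp (hβ s hs).1
      subst hb
      simp only at hy
      rw [← AddCircle.coe_add, ← sub_eq_zero, ← AddCircle.coe_sub, AddCircle.coe_eq_zero_iff] at hy
      obtain ⟨n, hn⟩ := hy
      refine mem_iUnion.mpr ⟨n, s, hs, ?_⟩
      simp only [zsmul_eq_mul, mul_one] at hn ⊢
      linarith
    · rw [measure_iUnion_null_iff]
      intro n
      rw [measure_preimage_add_right, h0]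

/-- The part of the union of the lines lying over the abscissae in `I`. -/
def sweep (S : Set ℝ) (β : ℝ → ℝ) (I : Set ℝ) : Set (ℝ × ℝ) :=
  (fun p : ℝ × ℝ => (p.1, p.2 * p.1 + β p.2)) '' (I ×ˢ S)

lemma isCompact_sweep {S : Set ℝ} {β : ℝ → ℝ} {I : Set ℝ} (hS : IsCompact S)
    (hβ : ContinuousOn β S) (hI : IsCompact I) : IsCompact (sweep S β I) := by
  refine (hI.prod hS).image_of_continuousOn (continuousOn_fst.prodMk
    ((continuousOn_snd.mul continuousOn_fst).add ?_))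
  exact hβ.comp continuousOn_snd fun p hp => hp.2

lemma sweep_null {S : Set ℝ} {β : ℝ → ℝ} {I : Set ℝ} (hS : IsCompact S)
    (hβ : ContinuousOn β S) (hI : IsCompact I)
    (h : ∀ x ∈ I, volume ((fun s => s * x + β s) '' S) = 0) : volume (sweep S β I) = 0 := by
  rw [Measure.volume_eq_prod,
    Measure.measure_prod_null (isCompact_sweep hS hβ hI).isClosed.measurableSet]
  refine Eventually.of_forall fun x => ?_
  by_cases hx : x ∈ I
  · refine measure_mono_null ?_ (h x hx)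
    rintro y ⟨⟨x', s⟩, hp, hy⟩
    obtain ⟨rfl, rfl⟩ := Prod.mk.inj hy
    exact ⟨s, hp.2, rfl⟩
  · have : Prod.mk x ⁻¹' sweep S β I = ∅ := by
      refine eq_empty_of_forall_notMem ?_
      rintro y ⟨⟨x', s⟩, hp, hy⟩
      obtain ⟨rfl, rfl⟩ := Prod.mk.inj hy
      exact hx hp.1
    simp [this]

lemma sweep_pos {S : Set ℝ} {β : ℝ → ℝ} {I : Set ℝ} (hS : IsCompact S)
    (hβ : ContinuousOn β S) (hI : IsCompact I) (hI0 : volume I ≠ 0)
    (h : ∀ x ∈ I, volume ((fun s => s * x + β s) '' S) ≠ 0) : volume (sweep S β I) ≠ 0 := by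
  rw [Measure.volume_eq_prod, Ne,
    Measure.measure_prod_null (isCompact_sweep hS hβ hI).isClosed.measurableSet]
  intro h0
  refine hI0 (measure_mono_null ?_ h0)
  intro x hx hx0
  refine h x hx (measure_mono_null ?_ hx0)
  rintro _ ⟨s, hs, rfl⟩
  exact ⟨(x, s), ⟨hx, hs⟩, rfl⟩

/-- Coordinates of a point of the Euclidean plane. -/
def coords (v : EuclideanSpace ℝ (Fin 2)) : ℝ × ℝ := (v 0, v 1)

lemma measurePreserving_coords : MeasurePreserving coords volume volume :=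
  (volume_preserving_finTwoArrow ℝ).comp (PiLp.volume_preserving_ofLp (Fin 2))

/-- Half of the horizontal extent of a unit segment of slope `s`. -/
noncomputable def hw (s : ℝ) : ℝ := 1 / (2 * √(1 + s ^ 2))

lemma hw_pos (s : ℝ) : 0 < hw s := by unfold hw; positivity

lemma continuous_hw : Continuous hw := by
  unfold hw
  refine continuous_const.div (by fun_prop) fun s => by positivity

lemma hw_sq (s : ℝ) : (2 * hw s) ^ 2 * (1 + s ^ 2) = 1 := by
  unfold hw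
  have h : 0 < 1 + s ^ 2 := by positivity
  have h2 : √(1 + s ^ 2) ^ 2 = 1 + s ^ 2 := Real.sq_sqrt h.le
  have h3 : √(1 + s ^ 2) ≠ 0 := by positivity
  field_simp
  exact h2.symm

lemma hw_le (s : ℝ) : hw s ≤ 1 / 2 := by
  nlinarith [hw_sq s, hw_pos s, sq_nonneg (s * hw s)]

lemma le_hw {s : ℝ} (h0 : 0 ≤ s) (h1 : s ≤ 1) : 13 / 20 ≤ 2 * hw s := by
  have h := hw_sq s
  have hp := hw_pos s
  have hs : s ^ 2 ≤ 1 := by nlinarith
  by_contra hc
  have h2 : (2 * hw s) ^ 2 ≤ (13 / 20) ^ 2 := by nlinarith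
  nlinarith

end Pool.Agent.P.MP_60620c_an
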