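import Pool.Agent.P.MP_60620c_an.Config

/-! A configuration that is thin over `[-1/2, 1/2]` and nearly full over `[3/5, 13/20]`. -/

namespace Pool.Agent.P.MP_60620c_an

open MeasureTheory Set Filter Topology Metric

lemma m_closedBall (c : T) {r : ℝ} (h0 : 0 ≤ r) (h1 : r ≤ 1 / 2) : m (closedBall c r) = 2 * r := by
  simp only [m, Measure.real]
  rw [AddCircle.volume_closedBall, min_eq_right (by linarith), ENNReal.toReal_ofReal (by linarith)]

lemma m_closedBall_le (c : T) {r : ℝ} (h0 : 0 ≤ r) : m (closedBall c r) ≤ 2 * r := by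
  simp only [m, Measure.real]
  rw [AddCircle.volume_closedBall, ENNReal.toReal_ofReal (le_min one_pos.le (by linarith))]
  exact min_le_right _ _

lemma norm_coe_le (a : ℝ) : ‖(a : T)‖ ≤ |a| := by
  simpa using (QuotientAddGroup.norm_mk_le_norm (m := a) (S := AddSubgroup.zmultiples (1 : ℝ)))

/-- The half circle around `0`. -/
def H₀ : Set T := closedBall 0 (1 / 4)

/-- The half circle around `1/2 - 2u/9`. -/
def H₁ (u : ℝ) : Set T := closedBall ((1 / 2 - 2 / 9 * u : ℝ) : T) (1 / 4)

/-- The probability of branching at abscissa `x` for the root `u`. -/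
noncomputable def q (u x : ℝ) : ℝ := m (tr ((2 / 9 * x : ℝ) : T) (H₁ u) ∩ H₀)

lemma mem_tr_H₁ {u x : ℝ} {y : T} : y ∈ tr ((2 / 9 * x : ℝ) : T) (H₁ u) ↔
    ‖y - ((1 / 2 + 2 / 9 * (x - u) : ℝ) : T)‖ ≤ 1 / 4 := by
  rw [mem_tr, H₁, mem_closedBall, dist_eq_norm, sub_sub, ← AddCircle.coe_add]
  rw [show 2 / 9 * x + (1 / 2 - 2 / 9 * u) = 1 / 2 + 2 / 9 * (x - u) by ring]

lemma q_nonneg (u x : ℝ) : 0 ≤ q u x := m_nonneg _

lemma m_H₀ : m H₀ = 1 / 2 := by
  rw [H₀, m_closedBall _ (by norm_num) (by norm_num)]; norm_num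

lemma m_H₁ (u : ℝ) : m (H₁ u) = 1 / 2 := by
  rw [H₁, m_closedBall _ (by norm_num) (by norm_num)]; norm_num

lemma q_le_half (u x : ℝ) : q u x ≤ 1 / 2 := m_H₀ ▸ m_mono inter_subset_right

lemma cover_halves (y : T) : ‖y‖ ≤ 1 / 4 ∨ ‖y - ((1 / 2 : ℝ) : T)‖ ≤ 1 / 4 := by
  obtain ⟨a, ha, rfl⟩ : ∃ a ∈ Ico (-1 / 4 : ℝ) (-1 / 4 + 1), (a : T) = y := by
    have := AddCircle.coe_image_Ico_eq (1 : ℝ) (-1 / 4)
    exact (this ▸ mem_univ y : y ∈ ((↑) : ℝ → T) '' Ico (-1 / 4 : ℝ) (-1 / 4 + 1))
  by_cases h : a ≤ 1 / 4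
  · left
    exact (norm_coe_le a).trans (abs_le.mpr ⟨by linarith [ha.1], h⟩)
  · right
    rw [← AddCircle.coe_sub]
    exact (norm_coe_le _).trans (abs_le.mpr ⟨by linarith, by linarith [ha.2]⟩)

lemma q_le (u x : ℝ) : q u x ≤ 4 / 9 * |x - u| := by
  set t := 2 / 9 * (x - u) with ht
  have habs : |t| = 2 / 9 * |x - u| := by rw [ht, abs_mul]; norm_num
  set B : Set T := closedBall ((1 / 2 : ℝ) : T) (1 / 4 + |t|) with hB
  have h1 : q u x ≤ m (B ∩ H₀) := by
    refine m_mono (inter_subset_inter_left _ fun y hy => ?_)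
    rw [mem_tr_H₁, ← ht] at hy
    rw [hB, mem_closedBall, dist_eq_norm]
    have : y - ((1 / 2 : ℝ) : T) = (y - ((1 / 2 + t : ℝ) : T)) + (t : T) := by
      rw [AddCircle.coe_add]; abel
    rw [this]
    exact (norm_add_le _ _).trans (add_le_add hy (norm_coe_le t))
  have h2 := m_union_add_inter B (V := H₀) isClosed_closedBall.measurableSet
  have h3 : B ∪ H₀ = univ := by
    refine eq_univ_of_forall fun y => ?_
    rcases cover_halves y with h | h
    · right
      simpa [H₀] using h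
    · left
      rw [hB, mem_closedBall, dist_eq_norm]
      linarith [abs_nonneg t]
  have h4 : m B ≤ 2 * (1 / 4 + |t|) := m_closedBall_le _ (by positivity)
  rw [h3, m_univ, m_H₀] at h2
  linarith

lemma le_q {u x : ℝ} (h0 : 1 / 10 ≤ u - x) (h1 : u - x ≤ 2) : 1 / 45 ≤ q u x := by
  set τ := 2 / 9 * (u - x) with hτ
  have hτ0 : 1 / 45 ≤ τ := by rw [hτ]; linarith
  have hτ1 : τ ≤ 1 / 2 := by rw [hτ]; linarith
  have h2 : m (closedBall ((1 / 4 - τ / 2 : ℝ) : T) (τ / 2)) = τ := by
    rw [m_closedBall _ (by linarith) (by linarith)]; ring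
  refine hτ0.trans (h2 ▸ m_mono fun y hy => ?_)
  rw [mem_closedBall, dist_eq_norm] at hy
  constructor
  · rw [mem_tr_H₁]
    have : y - ((1 / 2 + 2 / 9 * (x - u) : ℝ) : T) =
        (y - ((1 / 4 - τ / 2 : ℝ) : T)) + ((τ / 2 - 1 / 4 : ℝ) : T) := by
      rw [show (1 / 2 + 2 / 9 * (x - u) : ℝ) = (1 / 4 - τ / 2) - (τ / 2 - 1 / 4) by
        rw [hτ]; ring, AddCircle.coe_sub (1 : ℝ) (1 / 4 - τ / 2)]
      abel
    rw [this]
    refine (norm_add_le _ _).trans ?_
    have := norm_coe_le (τ / 2 - 1 / 4)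
    rw [abs_of_nonpos (by linarith)] at this
    linarith
  · rw [H₀, mem_closedBall, dist_zero_right]
    have : y = (y - ((1 / 4 - τ / 2 : ℝ) : T)) + ((1 / 4 - τ / 2 : ℝ) : T) := by abel
    rw [this]
    refine (norm_add_le _ _).trans ?_
    have := norm_coe_le (1 / 4 - τ / 2)
    rw [abs_of_nonneg (by linarith)] at this
    linarith

/-- Survival probability of the critical branching process with root `u`. -/
noncomputable def surv (u : ℝ) : ℕ → ℝ → ℝ
  | 0 => fun _ => 1
  | n + 1 => fun x => surv u n x - q u x * surv u n x * surv u n x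

lemma dens_surv (u : ℝ) (n : ℕ) : Dens (surv u n) := by
  induction n with
  | zero => exact dens_one
  | succ n ih =>
    have := ih.op ih (E₀ := H₀) (E₁ := H₁ u) isClosed_closedBall isClosed_closedBall
    convert this using 1
    ext x
    rw [m_H₀, m_H₁]
    simp only [surv, q]
    ring

lemma surv_bounds (u x : ℝ) (n : ℕ) :
    1 / (1 + 2 * n * q u x) ≤ surv u n x ∧ surv u n x ≤ 1 / (1 + n * q u x) := by
  have hq0 := q_nonneg u x
  have hq1 := q_le_half u x
  set r := q u x with hr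
  induction n with
  | zero => simp [surv]
  | succ n ih =>
    obtain ⟨h1, h2⟩ := ih
    simp only [surv, ← hr]
    set d := surv u n x
    have hn : (0 : ℝ) ≤ n := Nat.cast_nonneg n
    have hnr : 0 ≤ n * r := mul_nonneg hn hq0
    have p1 : 0 < 1 + 2 * n * r := by nlinarith
    have p2 : 0 < 1 + n * r := by nlinarith
    have hd0 : 0 < d := lt_of_lt_of_le (by positivity) h1
    have hd1 : d ≤ 1 := h2.trans (by rw [div_le_one p2]; linarith)
    rw [div_le_iff₀ p1] at h1
    rw [le_div_iff₀ p2] at h2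
    have hrd : r * d ≤ 1 / 2 := by nlinarith
    have hrd0 : 0 ≤ r * d := by positivity
    push_cast
    constructor
    · rw [div_le_iff₀ (by nlinarith)]
      have : (d - r * d * d) * (1 + 2 * (n + 1) * r) =
          (1 - r * d) * (d * (1 + 2 * n * r) + 2 * (r * d)) := by ring
      rw [this]
      have h3 : (1 - r * d) * (1 + 2 * (r * d)) ≤
          (1 - r * d) * (d * (1 + 2 * n * r) + 2 * (r * d)) :=
        mul_le_mul_of_nonneg_left (by linarith) (by linarith)
      nlinarith
    · rw [le_div_iff₀ (by nlinarith)]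
      have : (d - r * d * d) * (1 + (n + 1) * r) =
          (1 - r * d) * (d * (1 + n * r) + r * d) := by ring
      rw [this]
      have h3 : (1 - r * d) * (d * (1 + n * r) + r * d) ≤ (1 - r * d) * (1 + r * d) :=
        mul_le_mul_of_nonneg_left (by linarith) (by linarith)
      nlinarith

/-- Independent union of the first `M` profiles of a sequence. -/
noncomputable def uni (d : ℕ → ℝ → ℝ) : ℕ → ℝ → ℝ
  | 0 => fun _ => 0
  | M + 1 => fun x => uni d M x + d M x - uni d M x * d M x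

lemma dens_uni {d : ℕ → ℝ → ℝ} (hd : ∀ i, Dens (d i)) (M : ℕ) : Dens (uni d M) := by
  induction M with
  | zero => exact dens_zero
  | succ M ih =>
    have := ih.op (hd M) isClosed_univ isClosed_univ
    convert this using 1
    ext x
    have e : tr ((2 / 9 * x : ℝ) : T) univ ∩ univ = univ := by
      ext y; simp [mem_tr]
    rw [e, m_univ]
    simp only [uni]
    ring

lemma uni_bounds {d : ℕ → ℝ → ℝ} (hd : ∀ i, Dens (d i)) {x : ℝ} (hx : |x| ≤ 1) (M : ℕ) :
    uni d M x ≤ ∑ i ∈ Finset.range M, d i x ∧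
      (1 - uni d M x) * (1 + ∑ i ∈ Finset.range M, d i x) ≤ 1 := by
  induction M with
  | zero => simp [uni]
  | succ M ih =>
    obtain ⟨h1, h2⟩ := ih
    have b1 := (dens_uni hd M).bounds hx
    have b2 := (hd M).bounds hx
    have b3 : 0 ≤ ∑ i ∈ Finset.range M, d i x :=
      Finset.sum_nonneg fun i _ => ((hd i).bounds hx).1
    rw [Finset.sum_range_succ]
    simp only [uni]
    set a := uni d M x
    set b := d M x
    set S := ∑ i ∈ Finset.range M, d i x
    constructor
    · nlinarith [mul_nonneg b1.1 b2.1]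
    · have : (1 - (a + b - a * b)) * (1 + (S + b)) =
          (1 - a) * (1 + S) - (1 - a) * (b * (S + b)) := by ring
      rw [this]
      have : 0 ≤ (1 - a) * (b * (S + b)) :=
        mul_nonneg (by linarith) (mul_nonneg b2.1 (by linarith))
      linarith

/-- The key finite configuration. -/
lemma exists_good {ε : ℝ} (hε : 0 < ε) : ∃ G, IsCfg G ∧
    (∀ x : ℝ, |x| ≤ 1 / 2 → m (proj G x) ≤ ε) ∧
    (∀ x ∈ Icc (3 / 5 : ℝ) (13 / 20), 1 - ε ≤ m (proj G x)) := by
  obtain ⟨R, hR⟩ := exists_nat_ge (180 / ε)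
  have hR0 : (0 : ℝ) < R := lt_of_lt_of_le (by positivity) hR
  obtain ⟨M, hM, hM1⟩ := ((Real.tendsto_sum_range_one_div_nat_succ_atTop.eventually
    (eventually_ge_atTop ((1 + R) * (2 / ε)))).and (eventually_ge_atTop 1)).exists
  have hM0 : (0 : ℝ) < M := by exact_mod_cast hM1
  let u : ℕ → ℝ := fun i => 3 / 5 + i / (20 * M)
  let d : ℕ → ℝ → ℝ := fun i => surv (u i) (R * M)
  have hd : ∀ i, Dens (d i) := fun i => dens_surv _ _
  obtain ⟨G, hG, hG'⟩ := dens_uni hd (2 * M + 1) (ε / 4) (by linarith)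
  refine ⟨G, hG, fun x hx => ?_, fun x hx => ?_⟩
  · have hx1 : |x| ≤ 1 := hx.trans (by norm_num)
    have h1 := (uni_bounds hd hx1 (2 * M + 1)).1
    have h2 : ∑ i ∈ Finset.range (2 * M + 1), d i x ≤
        (Finset.range (2 * M + 1)).card • (45 / (R * M) : ℝ) := by
      refine Finset.sum_le_card_nsmul _ _ _ fun i hi => ?_
      have hi' : (i : ℝ) ≤ 2 * M := by
        have := Finset.mem_range.mp hi
        exact_mod_cast Nat.lt_succ_iff.mp this
      have hu0 : 3 / 5 ≤ u i := le_add_of_nonneg_right (by positivity)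
      have hu1 : u i ≤ 7 / 10 := by
        have : (i : ℝ) / (20 * M) ≤ 1 / 10 := by
          rw [div_le_iff₀ (by positivity)]; linarith
        simp only [u]; linarith
      rw [abs_le] at hx
      have hq := le_q (u := u i) (x := x) (by linarith) (by linarith)
      refine (surv_bounds (u i) x (R * M)).2.trans ?_
      have hRM : (0 : ℝ) < R * M := by positivity
      push_cast
      rw [div_le_div_iff₀ (by positivity) hRM]
      nlinarith
    rw [Finset.card_range, nsmul_eq_mul] at h2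
    have h3 : ((2 * M + 1 : ℕ) : ℝ) * (45 / (R * M)) ≤ 3 * ε / 4 := by
      rw [div_le_iff₀ hε] at hR
      have hM1' : (1 : ℝ) ≤ M := by exact_mod_cast hM1
      push_cast
      rw [← mul_div_assoc, div_le_iff₀ (by positivity)]
      nlinarith
    linarith [(abs_le.mp (hG' x hx1)).2]
  · have hx1 : |x| ≤ 1 := abs_le.mpr ⟨by linarith [hx.1], by linarith [hx.2]⟩
    have h1 := (uni_bounds hd hx1 (2 * M + 1)).2
    set i₀ := ⌈(x - 3 / 5) * (20 * M)⌉₊ with hi₀
    have hx0 : 0 ≤ (x - 3 / 5) * (20 * M) := mul_nonneg (by linarith [hx.1]) (by positivity)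
    have hi₀M : i₀ ≤ M := Nat.ceil_le.mpr (by nlinarith [hx.2])
    have hi₀a : (x - 3 / 5) * (20 * M) ≤ i₀ := Nat.le_ceil _
    have hi₀b : (i₀ : ℝ) < (x - 3 / 5) * (20 * M) + 1 := Nat.ceil_lt_add_one hx0
    have h2 : ∑ j ∈ Finset.range M, d (i₀ + j) x ≤ ∑ i ∈ Finset.range (2 * M + 1), d i x := by
      have e := Finset.sum_Ico_eq_sum_range (fun i => d i x) i₀ (i₀ + M)
      rw [Nat.add_sub_cancel_left] at e
      rw [← e]
      refine Finset.sum_le_sum_of_subset_of_nonneg (fun i hi => ?_)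
        (fun i _ _ => ((hd i).bounds hx1).1)
      rw [Finset.mem_Ico] at hi
      rw [Finset.mem_range]
      omega
    have h3 : ∑ j ∈ Finset.range M, (1 / (1 + R)) * (1 / ((j : ℝ) + 1)) ≤
        ∑ j ∈ Finset.range M, d (i₀ + j) x := by
      refine Finset.sum_le_sum fun j _ => ?_
      refine le_trans ?_ (surv_bounds (u (i₀ + j)) x (R * M)).1
      have hq := q_le (u (i₀ + j)) x
      have hq0 := q_nonneg (u (i₀ + j)) x
      have hj : (0 : ℝ) ≤ j := Nat.cast_nonneg j
      have hdist : |x - u (i₀ + j)| ≤ (j + 1) / (20 * M) := by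
        have e : x - u (i₀ + j) = ((x - 3 / 5) * (20 * M) - (i₀ + j)) / (20 * M) := by
          simp only [u]
          push_cast
          field_simp
          ring
        rw [e, abs_div, abs_of_pos (by positivity : (0 : ℝ) < 20 * M)]
        refine div_le_div_of_nonneg_right (abs_le.mpr ⟨by linarith, by linarith⟩) (by positivity)
      have hq2 : M * q (u (i₀ + j)) x ≤ (j + 1) / 45 := by
        have : q (u (i₀ + j)) x ≤ 4 / 9 * ((j + 1) / (20 * M)) := by linarith
        calc M * q (u (i₀ + j)) x ≤ M * (4 / 9 * ((j + 1) / (20 * M))) :=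
              mul_le_mul_of_nonneg_left this hM0.le
          _ = (j + 1) / 45 := by field_simp; ring
      rw [div_mul_div_comm, one_mul]
      push_cast
      refine one_div_le_one_div_of_le (by positivity) ?_
      nlinarith
    rw [← Finset.mul_sum] at h3
    have h4 : 2 / ε ≤ ∑ i ∈ Finset.range (2 * M + 1), d i x := by
      refine le_trans ?_ (h3.trans h2)
      rw [one_div, inv_mul_eq_div, le_div_iff₀ (by positivity)]
      linarith
    have b := (dens_uni hd (2 * M + 1)).bounds hx1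
    set a := uni d (2 * M + 1) x
    set S := ∑ i ∈ Finset.range (2 * M + 1), d i x
    have h5 : 1 - a ≤ ε / 2 := by
      rw [div_le_iff₀ hε] at h4
      have hS : 0 < S := by nlinarith
      nlinarith
    linarith [(abs_le.mp (hG' x hx1)).1]

end Pool.Agent.P.MP_60620c_an
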