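import Pool.Agent.P.MP_60620c_an.Profile

/-! Refining configurations and passing to the limit. -/

namespace Pool.Agent.P.MP_60620c_an

open MeasureTheory Set Filter Topology Metric

/-- Refine `A` by `H`: add slopes, intersect fibres. -/
def prod (A H : ℝ → Set T) : ℝ → Set T := fun σ => {b | ∃ s, b ∈ A s ∧ b ∈ H (σ - s)}

/-- All lines whose slope is within `η` of a line of `A` with the same intercept. -/
def L (A : ℝ → Set T) (η : ℝ) : Set (ℝ × T) := {p | ∃ s, p.2 ∈ A s ∧ |p.1 - s| ≤ η}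

/-- The slice at abscissa `x` of the union of a set of lines. -/
def pr (Z : Set (ℝ × T)) (x : ℝ) : Set T := (fun p : ℝ × T => p.2 + ((p.1 * x : ℝ) : T)) '' Z

lemma continuous_pr (x : ℝ) : Continuous (fun p : ℝ × T => p.2 + ((p.1 * x : ℝ) : T)) :=
  continuous_snd.add ((AddCircle.continuous_mk' 1).comp (continuous_fst.mul continuous_const))

lemma IsCfg.isCompact_L {A : ℝ → Set T} (h : IsCfg A) (η : ℝ) : IsCompact (L A η) := by
  have : L A η = ⋃ s ∈ supp A, Icc (s - η) (s + η) ×ˢ A s := by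
    ext p
    simp only [L, mem_ofPred_eq, mem_iUnion, mem_prod, mem_Icc, exists_prop, abs_le]
    constructor
    · rintro ⟨s, hs, h1, h2⟩
      exact ⟨s, ⟨_, hs⟩, ⟨by linarith, by linarith⟩, hs⟩
    · rintro ⟨s, -, ⟨h1, h2⟩, hs⟩
      exact ⟨s, hs, by linarith, by linarith⟩
  rw [this]
  exact h.fin.isCompact_biUnion fun s _ => isCompact_Icc.prod (h.closed s).isCompact

lemma proj_subset_pr (A : ℝ → Set T) {η : ℝ} (hη : 0 ≤ η) (x : ℝ) : proj A x ⊆ pr (L A η) x := by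
  rintro y ⟨s, hs⟩
  exact ⟨(s, y - ((s * x : ℝ) : T)), ⟨s, hs, by simpa using hη⟩, by simp⟩

lemma pr_subset (A : ℝ → Set T) (η : ℝ) {x : ℝ} (hx : |x| ≤ 1) :
    pr (L A η) x ⊆ proj A x ∪ bd η (proj A x) := by
  rintro y ⟨⟨σ, b⟩, ⟨s, hs, hσ⟩, rfl⟩
  by_cases h : b + ((σ * x : ℝ) : T) ∈ proj A x
  · exact Or.inl h
  · refine Or.inr ⟨h, (σ - s) * x, abs_mul_le_of hσ hx, s, ?_⟩
    have : b + ((σ * x : ℝ) : T) - (((σ - s) * x : ℝ) : T) - ((s * x : ℝ) : T) = b := by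
      rw [sub_mul, AddCircle.coe_sub]; abel
    simpa only [this] using hs

lemma IsCfg.m_pr_le {A : ℝ → Set T} (h : IsCfg A) {ε : ℝ} (hε : 0 < ε) :
    ∀ᶠ k in atTop, ∀ x : ℝ, |x| ≤ 1 → m (pr (L A ((1 / 3) ^ k)) x) ≤ m (proj A x) + ε := by
  filter_upwards [h.reg_proj ε hε] with k hk x hx
  exact ((m_mono (pr_subset A _ hx)).trans (m_union_le _ _)).trans (by linarith [hk x hx])

lemma IsCfg.prod {A : ℝ → Set T} (hA : IsCfg A) {I : Set ℝ} {H : ℕ → ℝ → Set T} (hH : Fine I H) :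
    ∀ᶠ k in atTop, IsCfg (prod A (H k)) := by
  have h1 : ∀ᶠ k in atTop, ∀ s ∈ supp A, GoodAt k s :=
    (eventually_all_finite hA.fin).mpr fun s hs => (hA.good s hs).eventually
  filter_upwards [h1] with k hk
  refine ⟨fun σ => ?_, ?_, ?_⟩
  · have : Pool.Agent.P.MP_60620c_an.prod A (H k) σ = ⋃ s ∈ supp A, A s ∩ H k (σ - s) := by
      ext b
      simp only [Pool.Agent.P.MP_60620c_an.prod, mem_ofPred_eq, mem_iUnion, mem_inter_iff,
        exists_prop]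
      exact ⟨fun ⟨s, h1, h2⟩ => ⟨s, ⟨b, h1⟩, h1, h2⟩, fun ⟨s, _, h⟩ => ⟨s, h⟩⟩
    rw [this]
    exact hA.fin.isClosed_biUnion fun s _ => (hA.closed s).inter (hH.closed k _)
  · refine (hA.fin.image2 (fun a b => a + b) (hH.isCfg k).fin).subset ?_
    rintro σ ⟨b, s, h1, h2⟩
    exact ⟨s, ⟨b, h1⟩, σ - s, ⟨b, h2⟩, by ring⟩
  · rintro σ ⟨b, s, h1, h2⟩
    obtain ⟨i, hi, hi'⟩ := hH.sub k (σ - s) ⟨b, h2⟩
    have := (hk s ⟨b, h1⟩).add (hH.good i hi)
    rwa [← hi', add_sub_cancel] at this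

lemma L_prod_subset (A : ℝ → Set T) {I : Set ℝ} {H : ℕ → ℝ → Set T} (hH : Fine I H) {η : ℝ}
    (hη : 0 < η) : ∀ᶠ k in atTop, ∀ η' ≤ η / 2, L (prod A (H k)) η' ⊆ L A η := by
  filter_upwards [eventually_pow_le (half_pos hη)] with k hk η' hη'
  rintro ⟨σ, b⟩ ⟨σ', ⟨s, h1, h2⟩, h3⟩
  refine ⟨s, h1, ?_⟩
  have h4 := hH.abs_le (k := k) (s := σ' - s) ⟨b, h2⟩
  have : σ - s = (σ - σ') + (σ' - s) := by ring
  simp only at h3 ⊢
  rw [this]
  linarith [abs_add_le (σ - σ') (σ' - s)]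

lemma IsCfg.m_proj_prod_le {A : ℝ → Set T} (hA : IsCfg A) (H : ℝ → Set T) (x : ℝ) :
    m (proj (Pool.Agent.P.MP_60620c_an.prod A H) x) ≤ hA.fin.toFinset.card * m (proj H x) := by
  refine le_trans (m_mono ?_) (m_biUnion_le hA.fin.toFinset
    (fun s => tr ((s * x : ℝ) : T) (proj H x)) fun s _ => (m_tr _ _).le)
  rintro y ⟨σ, s, h1, h2⟩
  simp only [mem_iUnion, exists_prop, Finite.mem_toFinset]
  refine ⟨s, ⟨_, h1⟩, σ - s, ?_⟩
  rwa [sub_sub, ← AddCircle.coe_add, show s * x + (σ - s) * x = σ * x by ring]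

lemma IsCfg.loss {A : ℝ → Set T} (hA : IsCfg A) {I : Set ℝ} {H : ℕ → ℝ → Set T} (hH : Fine I H)
    {ε : ℝ} (hε : 0 < ε) : ∀ᶠ k in atTop, ∀ x : ℝ, |x| ≤ 1 →
      m (proj A x) ≤ m (proj (Pool.Agent.P.MP_60620c_an.prod A (H k)) x) +
        hA.fin.toFinset.card * (1 - m (proj (H k) x)) + ε := by
  have h1 : Small (fun k x => ⋃ s ∈ supp A, tr ((s * x : ℝ) : T)
      ((proj (H k) x ∩ A s) \ proj (gate (A s) (H k)) x)) :=
    Small.biUnion hA.fin fun s _ =>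
      (hH.small_deficit (hA.closed s)).mono fun k x _ => (m_tr _ _).le
  filter_upwards [h1 ε hε] with k hk x hx
  have h2 := m_biUnion_le hA.fin.toFinset (fun s => tr ((s * x : ℝ) : T) (proj (H k) x)ᶜ)
    (c := 1 - m (proj (H k) x)) fun s _ => by
      rw [m_tr, m_compl ((hH.isCfg k).isClosed_proj x).measurableSet]
  have h3 := m_le_add_diff (proj A x) (proj (Pool.Agent.P.MP_60620c_an.prod A (H k)) x)
  have h4 : proj A x \ proj (Pool.Agent.P.MP_60620c_an.prod A (H k)) x ⊆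
      (⋃ s ∈ hA.fin.toFinset, tr ((s * x : ℝ) : T) (proj (H k) x)ᶜ) ∪
      ⋃ s ∈ supp A, tr ((s * x : ℝ) : T) ((proj (H k) x ∩ A s) \ proj (gate (A s) (H k)) x) := by
    rintro y ⟨⟨s, hs⟩, hy⟩
    simp only [mem_union, mem_iUnion, exists_prop, Finite.mem_toFinset]
    by_cases h : y - ((s * x : ℝ) : T) ∈ proj (H k) x
    · refine Or.inr ⟨s, ⟨_, hs⟩, ⟨h, hs⟩, ?_⟩
      rintro ⟨s', h5, h6⟩
      refine hy ⟨s + s', s, ?_⟩
      rw [add_sub_cancel_left, add_mul, AddCircle.coe_add, ← sub_sub]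
      exact ⟨h6, h5⟩
    · exact Or.inl ⟨s, ⟨_, hs⟩, h⟩
  have h5 := (m_mono h4).trans (m_union_le _ _)
  linarith [hk x hx]

/-- The interval over which the union stays large. -/
def Near : Set ℝ := Icc (3 / 5) (13 / 20)

lemma abs_le_of_near {x : ℝ} (hx : x ∈ Near) : |x| ≤ 1 :=
  abs_le.mpr ⟨by linarith [hx.1], by linarith [hx.2]⟩

lemma thin_step {A : ℝ → Set T} (hA : IsCfg A) {η ε : ℝ} (hη : 0 < η) (hε : 0 < ε) :
    ∃ A' η', IsCfg A' ∧ 0 < η' ∧ L A' η' ⊆ L A η ∧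
      (∀ x ∈ Near, m (proj A x) ≤ m (proj A' x) + ε) ∧
      (∀ x : ℝ, |x| ≤ 1 / 2 → m (pr (L A' η') x) ≤ ε) := by
  set N : ℝ := (hA.fin.toFinset.card : ℝ) with hN
  have hN0 : 0 ≤ N := Nat.cast_nonneg _
  have hε' : 0 < ε / (2 * (N + 1)) := by positivity
  have hNε : N * (ε / (2 * (N + 1))) ≤ ε / 2 := by
    rw [← mul_div_assoc, div_le_div_iff₀ (by positivity) (by norm_num)]
    nlinarith
  obtain ⟨G, hG, hG1, hG2⟩ := exists_good hε'
  obtain ⟨k, ⟨h1, h2⟩, h3⟩ := (((hA.prod hG.fine_scale).and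
    (L_prod_subset A hG.fine_scale hη)).and (hA.loss hG.fine_scale (half_pos hε))).exists
  obtain ⟨j, h4, h5⟩ := ((h1.m_pr_le (half_pos hε)).and
    (eventually_pow_le (half_pos hη))).exists
  refine ⟨_, (1 / 3) ^ j, h1, by positivity, h2 _ h5, fun x hx => ?_, fun x hx => ?_⟩
  · have a1 := h3 x (abs_le_of_near hx)
    rw [proj_scale, m_sc _ (hG.isClosed_proj x).measurableSet, ← hN] at a1
    have a2 : N * (1 - m (proj G x)) ≤ N * (ε / (2 * (N + 1))) :=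
      mul_le_mul_of_nonneg_left (by linarith [hG2 x hx]) hN0
    linarith
  · have a1 := h4 x (hx.trans (by norm_num))
    have a2 := hA.m_proj_prod_le (scale k G) x
    rw [proj_scale, m_sc _ (hG.isClosed_proj x).measurableSet, ← hN] at a2
    have a3 : N * m (proj G x) ≤ N * (ε / (2 * (N + 1))) :=
      mul_le_mul_of_nonneg_left (hG1 x hx) hN0
    linarith

lemma exists_gap {S : Set ℝ} (hS : S.Finite) :
    ∃ δ > 0, ∀ s ∈ S, ∀ s' ∈ S, |s - s'| ≤ δ → s = s' := by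
  have : ∀ᶠ k : ℕ in atTop, ∀ s ∈ S, ∀ s' ∈ S, |s - s'| ≤ (1 / 3) ^ k → s = s' := by
    refine (eventually_all_finite hS).mpr fun s _ => (eventually_all_finite hS).mpr fun s' _ => ?_
    by_cases h : s = s'
    · exact Eventually.of_forall fun _ _ => h
    · have hpos : 0 < |s - s'| := abs_pos.mpr (sub_ne_zero.mpr h)
      filter_upwards [eventually_pow_le (half_pos hpos)] with k hk hk'
      linarith
  obtain ⟨k, hk⟩ := this.exists
  exact ⟨(1 / 3) ^ k, by positivity, hk⟩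

lemma exists_split {ε : ℝ} (hε : 0 < ε) : ∃ B, IsCfg B ∧
    (∀ s, ∀ b ∈ B s, ∀ b' ∈ B s, dist b b' ≤ ε) ∧
    ∀ᶠ k in atTop, ∀ x : ℝ, |x| ≤ 1 → proj (flat k B) x = univ := by
  obtain ⟨Z, -, hZ, hcov⟩ := finite_cover_balls_of_compact (isCompact_univ (X := T))
    (e := ε / 4) (by linarith)
  obtain ⟨n, f, hf⟩ := hZ.fin_param
  obtain ⟨hf, hf'⟩ := hf
  let σ : Fin n → ℝ := fun j => (2 / 3) / 3 ^ (j : ℕ)
  have hσ : Function.Injective σ := by
    intro i j hij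
    have h3 : (3 : ℝ) ^ (i : ℕ) = 3 ^ (j : ℕ) := by
      simp only [σ] at hij
      field_simp at hij
      exact hij.symm
    exact Fin.ext (pow_right_injective₀ (by norm_num) (by norm_num) h3)
  let B : ℝ → Set T := fun s => ⋃ j ∈ {j | σ j = s}, closedBall (f j) (ε / 2)
  have hBmem : ∀ s b, b ∈ B s ↔ ∃ j, σ j = s ∧ dist b (f j) ≤ ε / 2 := by
    intro s b
    simp [B]
  refine ⟨B, ⟨fun s => ?_, ?_, ?_⟩, ?_, ?_⟩
  · exact (toFinite _).isClosed_biUnion fun _ _ => isClosed_closedBall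
  · refine (finite_range σ).subset ?_
    rintro s ⟨b, hb⟩
    obtain ⟨j, hj, -⟩ := (hBmem s b).mp hb
    exact ⟨j, hj⟩
  · rintro s ⟨b, hb⟩
    obtain ⟨j, rfl, -⟩ := (hBmem s b).mp hb
    exact good_two_thirds.div_pow _
  · intro s b hb b' hb'
    obtain ⟨j, hj, h1⟩ := (hBmem s b).mp hb
    obtain ⟨j', hj', h2⟩ := (hBmem s b').mp hb'
    obtain rfl : j = j' := hσ (hj.trans hj'.symm)
    linarith [dist_triangle_right b b' (f j)]
  · filter_upwards [eventually_pow_le (δ := ε / 4) (by linarith)] with k hk x hx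
    refine eq_univ_of_forall fun y => ?_
    have hy := hcov (mem_univ y)
    simp only [mem_iUnion, exists_prop] at hy
    obtain ⟨z, hz, hyz⟩ := hy
    rw [← hf'] at hz
    obtain ⟨j, rfl⟩ := hz
    have h3 : (0 : ℝ) < 3 ^ k := by positivity
    refine ⟨σ j / 3 ^ k, (hBmem _ _).mpr ⟨j, by field_simp, ?_⟩⟩
    have h1 : |σ j / 3 ^ k| ≤ (1 / 3) ^ k := by
      rw [abs_div, abs_of_pos h3, one_div_pow]
      exact div_le_div_of_nonneg_right (good_two_thirds.div_pow _).abs_le h3.le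
    have h2 := (norm_coe_le _).trans (abs_mul_le_of h1 hx)
    have h4 : dist (y - ((σ j / 3 ^ k * x : ℝ) : T)) y = ‖((σ j / 3 ^ k * x : ℝ) : T)‖ := by
      rw [dist_eq_norm, sub_sub_cancel_left, norm_neg]
    have h5 := dist_triangle (y - ((σ j / 3 ^ k * x : ℝ) : T)) y (f j)
    rw [mem_ball] at hyz
    linarith

lemma split_step {A : ℝ → Set T} (hA : IsCfg A) {η ε : ℝ} (hη : 0 < η) (hε : 0 < ε) :
    ∃ A' η', IsCfg A' ∧ 0 < η' ∧ η' ≤ ε ∧ L A' η' ⊆ L A η ∧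
      (∀ x ∈ Near, m (proj A x) ≤ m (proj A' x) + ε) ∧
      (∀ σ b b', (σ, b) ∈ L A' η' → (σ, b') ∈ L A' η' → dist b b' ≤ ε) := by
  obtain ⟨B, hB, hB1, hB2⟩ := exists_split hε
  obtain ⟨δ, hδ, hgap⟩ := exists_gap hA.fin
  obtain ⟨k, ⟨⟨⟨h1, h2⟩, h3⟩, h4⟩, h5⟩ := (((((hA.prod hB.fine_flat).and
    (L_prod_subset A hB.fine_flat hη)).and (hA.loss hB.fine_flat hε)).and hB2).and
    (eventually_pow_le (half_pos hδ))).exists
  obtain ⟨δ', hδ', hgap'⟩ := exists_gap h1.fin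
  refine ⟨_, min (δ' / 2) (min ε (η / 2)), h1, by positivity,
    (min_le_right _ _).trans (min_le_left _ _),
    h2 _ ((min_le_right _ _).trans (min_le_right _ _)), fun x hx => ?_, ?_⟩
  · have a1 := h3 x (abs_le_of_near hx)
    rw [h4 x (abs_le_of_near hx), m_univ] at a1
    linarith
  · rintro σ b b' ⟨s, hs, hσ⟩ ⟨s', hs', hσ'⟩
    simp only at hs hσ hs' hσ'
    have e1 : s = s' := by
      refine hgap' s ⟨_, hs⟩ s' ⟨_, hs'⟩ ?_
      have := min_le_left (δ' / 2) (min ε (η / 2))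
      rw [abs_le] at *
      constructor <;> linarith [hσ.1, hσ.2, hσ'.1, hσ'.2]
    subst e1
    obtain ⟨r, hr1, hr2⟩ := hs
    obtain ⟨r', hr1', hr2'⟩ := hs'
    have e2 : r = r' := by
      refine hgap r ⟨_, hr1⟩ r' ⟨_, hr1'⟩ ?_
      have b1 := hB.fine_flat.abs_le (k := k) (s := s - r) ⟨_, hr2⟩
      have b2 := hB.fine_flat.abs_le (k := k) (s := s - r') ⟨_, hr2'⟩
      rw [abs_le] at *
      constructor <;> linarith [b1.1, b1.2, b2.1, b2.2]
    subst e2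
    exact hB1 _ _ hr2 _ hr2'

/-- A stage of the construction. -/
def St : Type := {p : (ℝ → Set T) × ℝ // IsCfg p.1 ∧ 0 < p.2}

lemma step (p : St) {ε : ℝ} (hε : 0 < ε) : ∃ p' : St, p'.1.2 ≤ ε ∧
    L p'.1.1 p'.1.2 ⊆ L p.1.1 p.1.2 ∧
    (∀ x ∈ Near, m (proj p.1.1 x) ≤ m (proj p'.1.1 x) + 2 * ε) ∧
    (∀ x : ℝ, |x| ≤ 1 / 2 → m (pr (L p'.1.1 p'.1.2) x) ≤ ε) ∧
    (∀ σ b b', (σ, b) ∈ L p'.1.1 p'.1.2 → (σ, b') ∈ L p'.1.1 p'.1.2 → dist b b' ≤ ε) := by
  obtain ⟨A₁, η₁, a1, a2, a3, a4, a5⟩ := thin_step p.2.1 p.2.2 hε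
  obtain ⟨A₂, η₂, b1, b2, b3, b4, b5, b6⟩ := split_step a1 a2 hε
  refine ⟨⟨(A₂, η₂), b1, b2⟩, b3, b4.trans a3, fun x hx => ?_, fun x hx => ?_, b6⟩
  · linarith [a4 x hx, b5 x hx]
  · exact (m_mono (image_mono b4)).trans (a5 x hx)

/-- The limiting compact set of lines on the cylinder. -/
lemma exists_limit : ∃ Z : Set (ℝ × T), IsCompact Z ∧ (∀ p ∈ Z, p.1 ∈ cantorSet) ∧
    (∀ p ∈ Z, ‖p.2‖ ≤ 1 / 4) ∧ (∀ σ b b', (σ, b) ∈ Z → (σ, b') ∈ Z → b = b') ∧
    (∀ x : ℝ, |x| ≤ 1 / 2 → volume (pr Z x) = 0) ∧ (∀ x ∈ Near, volume (pr Z x) ≠ 0) := by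
  have hpos : ∀ n : ℕ, (0 : ℝ) < (1 / 3) ^ (n + 3) := fun n => by positivity
  choose f hf1 hf2 hf3 hf4 hf5 using fun (p : St) (n : ℕ) => step p (hpos n)
  let p₀ : St := ⟨(single H₀, 1), isCfg_single isClosed_closedBall, one_pos⟩
  let P : ℕ → St := fun n => Nat.rec p₀ (fun n p => f p n) n
  have hP : ∀ n, P (n + 1) = f (P n) n := fun n => rfl
  let Z : ℕ → Set (ℝ × T) := fun n => L (P n).1.1 (P n).1.2
  have hZc : ∀ n, IsCompact (Z n) := fun n => (P n).2.1.isCompact_L _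
  have hZs : ∀ n, Z (n + 1) ⊆ Z n := fun n => hf2 (P n) n
  have hZa : Antitone Z := antitone_nat_of_succ_le hZs
  have hev : ∀ ε > 0, ∃ n : ℕ, ((1 : ℝ) / 3) ^ (n + 3) ≤ ε := by
    intro ε hε
    obtain ⟨n, hn⟩ := (eventually_pow_le hε).exists
    exact ⟨n, le_trans (pow_le_pow_of_le_one (by norm_num) (by norm_num) (by omega)) hn⟩
  refine ⟨⋂ n, Z n, (hZc 0).of_isClosed_subset (isClosed_iInter fun n => (hZc n).isClosed)
    (iInter_subset _ 0), fun p hp => ?_, fun p hp => ?_, fun σ b b' h1 h2 => ?_,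
    fun x hx => ?_, fun x hx => ?_⟩
  · rw [← isClosed_cantorSet.closure_eq, Metric.mem_closure_iff]
    intro ε hε
    obtain ⟨n, hn⟩ := hev _ (half_pos hε)
    obtain ⟨s, hs, hs'⟩ := mem_iInter.mp hp (n + 1)
    refine ⟨s, ((P (n + 1)).2.1.good s ⟨_, hs⟩).mem, ?_⟩
    have := hf1 (P n) n
    rw [← hP] at this
    rw [Real.dist_eq]
    linarith
  · obtain ⟨s, hs, -⟩ := mem_iInter.mp hp 0
    have : p.2 ∈ H₀ := hs.2
    simpa [H₀] using this
  · refine eq_of_forall_dist_le fun ε hε => ?_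
    obtain ⟨n, hn⟩ := hev _ hε
    exact (hf5 (P n) n σ b b' (mem_iInter.mp h1 (n + 1)) (mem_iInter.mp h2 (n + 1))).trans hn
  · rw [← measureReal_eq_zero_iff]
    refine le_antisymm (le_of_forall_pos_le_add fun ε hε => ?_) measureReal_nonneg
    obtain ⟨n, hn⟩ := hev _ hε
    have h1 : m (pr (⋂ n, Z n) x) ≤ m (pr (Z (n + 1)) x) :=
      m_mono (image_mono (iInter_subset Z (n + 1)))
    have h2 := hf4 (P n) n x hx
    change m _ ≤ _
    have h3 : m (pr (Z (n + 1)) x) ≤ (1 / 3) ^ (n + 3) := h2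
    linarith
  · have h1 : ∀ n, 1 / 4 + (1 / 3) ^ (n + 2) ≤ m (proj (P n).1.1 x) := by
      intro n
      induction n with
      | zero =>
        change _ ≤ m (proj (single H₀) x)
        rw [proj_single, m_H₀]
        norm_num
      | succ n ih =>
        have := hf3 (P n) n x hx
        rw [← hP] at this
        have e : ((1 : ℝ) / 3) ^ (n + 2) = 3 * (1 / 3) ^ (n + 3) := by ring
        rw [show n + 1 + 2 = n + 3 by ring]
        linarith
    have h2 : pr (⋂ n, Z n) x = ⋂ n, pr (Z n) x := by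
      refine Subset.antisymm (subset_iInter fun n => image_mono (iInter_subset _ n)) fun y hy => ?_
      let g : ℝ × T → T := fun p => p.2 + ((p.1 * x : ℝ) : T)
      have hcl : IsClosed (g ⁻¹' {y}) := isClosed_singleton.preimage (continuous_pr x)
      obtain ⟨p, hp⟩ := IsCompact.nonempty_iInter_of_sequence_nonempty_isCompact_isClosed
        (fun n => Z n ∩ g ⁻¹' {y}) (fun n => inter_subset_inter_left _ (hZs n))
        (fun n => by
          obtain ⟨p, hp, hp'⟩ := mem_iInter.mp hy n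
          exact ⟨p, hp, hp'⟩)
        ((hZc 0).inter_right hcl) (fun n => (hZc n).isClosed.inter hcl)
      exact ⟨p, mem_iInter.mpr fun n => (mem_iInter.mp hp n).1, (mem_iInter.mp hp 0).2⟩
    rw [h2]
    have h3 : Antitone fun n => pr (Z n) x := fun a b hab => image_mono (hZa hab)
    rw [h3.measure_iInter (fun n =>
      ((hZc n).image (continuous_pr x)).isClosed.measurableSet.nullMeasurableSet)
      ⟨0, measure_ne_top _ _⟩]
    refine ne_of_gt (lt_of_lt_of_le (ENNReal.ofReal_pos.mpr (by norm_num : (0 : ℝ) < 1 / 4))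
      (le_iInf fun n => ?_))
    rw [← ofReal_measureReal (μ := volume) (s := pr (Z n) x)]
    refine ENNReal.ofReal_le_ofReal ?_
    have h4 : m (proj (P n).1.1 x) ≤ m (pr (Z n) x) := m_mono (proj_subset_pr _ (P n).2.2.le x)
    have h5 : (0 : ℝ) < (1 / 3) ^ (n + 2) := by positivity
    change _ ≤ m _
    linarith [h1 n]

end Pool.Agent.P.MP_60620c_an
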